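import Pool.Agent.H650Z.MinMain

set_option autoImplicit false

namespace Pool.Agent.Results.MP_46bc6f_an.AMinimalDistortion

open H593Z.Sim

/-- A minimal subshift whose automorphism group contains a distortion element. -/
theorem result :
    ∃ (k : ℕ) (X : Set (ℤ → Fin k)), X.Nonempty ∧ IsClosed X ∧
      (∀ x : ℤ → Fin k, x ∈ X ↔ (fun n => x (n + 1)) ∈ X) ∧
      (∀ x ∈ X, X ⊆ closure {y : ℤ → Fin k | ∃ m : ℤ, y = fun n => x (n + m)}) ∧
      ∃ (S : Finset (Equiv.Perm X)) (g : Equiv.Perm X), g ∈ S ∧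
        (∀ h ∈ S, Continuous h ∧ Continuous h.symm ∧
          ∀ p q : X, (q.1 = fun n => p.1 (n + 1)) → (h q).1 = fun n => (h p).1 (n + 1)) ∧
        ¬ IsOfFinOrder g ∧
        ∀ ε : ℝ, 0 < ε → ∃ N : ℕ, ∀ n : ℕ, N ≤ n →
          ∃ l : List (Equiv.Perm X), (∀ h ∈ l, h ∈ S ∨ h⁻¹ ∈ S) ∧ l.prod = g ^ n ∧
            (l.length : ℝ) ≤ ε * n := by
  classical
  obtain ⟨k, F, hF⟩ := H650Z.Min.exists_fam
  refine ⟨k, F.X, F.X_nonempty, F.X_closed, ?_, fun x hx => F.X_minimal hx,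
    {F.rho Heis.x, F.rho Heis.y, F.rho Heis.z}, F.rho Heis.z, by simp, ?_,
    H650Z.Min.z_inf_of F hF, H650Z.Min.distorted_map F.rho⟩
  · intro x
    refine ⟨fun hx => F.shift_mem hx 1, fun hx => ?_⟩
    simpa using F.shift_mem hx (-1)
  · have key : ∀ g, Continuous (F.rho g) ∧ Continuous (F.rho g).symm ∧
        ∀ p q : F.X, (q.1 = fun n => p.1 (n + 1)) →
          (F.rho g q).1 = fun n => (F.rho g p).1 (n + 1) := by
      intro g
      refine ⟨F.rho_cont g, ?_, fun p q h => ?_⟩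
      · rw [← Equiv.Perm.inv_def, ← map_inv]
        exact F.rho_cont _
      · funext n
        rw [F.rho_val, F.rho_val, h]
        exact F.a_shift _ p.1 1 n
    intro h hh
    simp only [Finset.mem_insert, Finset.mem_singleton] at hh
    rcases hh with rfl | rfl | rfl <;> exact key _

end Pool.Agent.Results.MP_46bc6f_an.AMinimalDistortion
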