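import Pool.Agent.H593Z.HeisMean

set_option autoImplicit false

namespace Pool.Agent.Results.MP_46bc6f_an.ZeroEntropyDistortion

open H593Z.Sim

/-- A subshift of zero entropy whose automorphism group contains a distortion element. -/
theorem result :
    ∃ (k : ℕ) (X : Set (ℤ → Fin k)), X.Nonempty ∧ IsClosed X ∧
      (∀ x : ℤ → Fin k, x ∈ X ↔ (fun n => x (n + 1)) ∈ X) ∧
      Filter.Tendsto
        (fun n : ℕ =>
          Real.log (Set.ncard {u : Fin n → Fin k | ∃ x ∈ X, ∀ j : Fin n, u j = x (j.val : ℤ)}) / n)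
        Filter.atTop (nhds 0) ∧
      ∃ (S : Finset (Equiv.Perm X)) (g : Equiv.Perm X), g ∈ S ∧
        (∀ h ∈ S, Continuous h ∧ Continuous h.symm ∧
          ∀ p q : X, (q.1 = fun n => p.1 (n + 1)) → (h q).1 = fun n => (h p).1 (n + 1)) ∧
        ¬ IsOfFinOrder g ∧
        ∀ ε : ℝ, 0 < ε → ∃ N : ℕ, ∀ n : ℕ, N ≤ n →
          ∃ l : List (Equiv.Perm X), (∀ h ∈ l, h ∈ S ∨ h⁻¹ ∈ S) ∧ l.prod = g ^ n ∧
            (l.length : ℝ) ≤ ε * n := by
  classical
  obtain ⟨k, F, hF⟩ := Heis.exists_fam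
  have hinj := F.rho_inj (1 : ℤ) (AddMonoidHom.id ℤ) rfl
  refine ⟨k, F.X (1 : ℤ), F.X_nonempty 1 (AddMonoidHom.id ℤ) rfl, F.X_closed 1, ?_, ?_,
    {F.rho 1 Heis.x, F.rho 1 Heis.y, F.rho 1 Heis.z}, F.rho 1 Heis.z, by simp, ?_, ?_,
    Heis.distorted_map (F.rho 1)⟩
  · intro x
    refine ⟨fun hx => F.shift_mem 1 hx 1, fun hx => ?_⟩
    simpa using F.shift_mem 1 hx (-1)
  · simpa only [F.words_X] using hF
  · have key : ∀ g, Continuous (F.rho (1 : ℤ) g) ∧ Continuous (F.rho (1 : ℤ) g).symm ∧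
        ∀ p q : F.X (1 : ℤ), (q.1 = fun n => p.1 (n + 1)) →
          (F.rho 1 g q).1 = fun n => (F.rho 1 g p).1 (n + 1) := by
      intro g
      refine ⟨F.rho_cont 1 g, ?_, fun p q h => ?_⟩
      · rw [← Equiv.Perm.inv_def, ← map_inv]
        exact F.rho_cont 1 _
      · funext n
        rw [F.rho_val, F.rho_val, h]
        exact F.a_shift 1 _ p.1 1 n
    intro h hh
    simp only [Finset.mem_insert, Finset.mem_singleton] at hh
    rcases hh with rfl | rfl | rfl <;> exact key _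
  · rw [hinj.isOfFinOrder_iff]
    exact Heis.z_inf

end Pool.Agent.Results.MP_46bc6f_an.ZeroEntropyDistortion
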